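import Pool.Agent.helper80.SG.Spec2
import Pool.Agent.helper53.SG.DFC

/-!
# Project sq: (MP_b5a345_ag), module DF5: the deformation property for the five types
-/

set_option autoImplicit false
set_option linter.unusedSectionVars false

namespace Pool.Agent.SG

open MvPolynomial Module Pool.Agent.SV

section

variable {ι κ : Type} [Fintype ι] [DecidableEq ι] [Fintype κ] [DecidableEq κ]

theorem DF5_used (t : Option (Fin 4)) (a : Fin 3) (i i' : ι)
    (h : used5 t (some (a, some i)) = true) : used5 t (some (a, some i')) = true := by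
  rcases t with _ | ρ
  · exact h
  · exact h

/-- the functionals are polynomial when the points move -/
theorem DF5_poly1 (hPLY : PLY_stmt) (c : ι → κ) (T : Finset κ) (L w : ι → ℂ)
    (P : (ι → ℂ) × (ι → ℂ)) (f : MvPolynomial ι ℂ) (o : Option (Fin 3 × Option ι)) :
    PolyFun (fun z : ℂ => roleF c T (hpt c Finset.univ L w z P.1, hpt c Finset.univ L w z P.2)
      o f) := by
  rcases o with _ | ⟨a, o⟩
  · have e : (fun z : ℂ => roleF c T
        (hpt c Finset.univ L w z P.1, hpt c Finset.univ L w z P.2) none f) =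
        fun z => ∑ i ∈ Finset.univ.filter (fun i => c i ∈ T), hpt c Finset.univ L w z P.2 i *
          eval (hpt c Finset.univ L w z P.1) (pderiv i f) := by
      funext z
      exact tgtL_apply c T _ f
    rw [e]
    refine PolyFun.sum _ fun i _ => ?_
    exact (DFM_hpt c Finset.univ L w P.2 i).mul
      ((hPLY (ι := ι) (κ := κ)).1 (fun j t => hpt c Finset.univ L w t P.1 j)
        (fun j => DFM_hpt c Finset.univ L w P.1 j) _)
  · rcases o with _ | i
    · have e : (fun z : ℂ => roleF c T
          (hpt c Finset.univ L w z P.1, hpt c Finset.univ L w z P.2) (some (a, none)) f) =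
          fun z => eval (fun j => hpt c Finset.univ L w z (ptc c T a P) j) f := by
        funext z
        show fnl (ptc c T a _) none f = _
        rw [fnl_none, DFC_ptc]
      rw [e]
      exact (hPLY (ι := ι) (κ := κ)).1 (fun j t => hpt c Finset.univ L w t (ptc c T a P) j)
        (fun j => DFM_hpt c Finset.univ L w (ptc c T a P) j) _
    · have e : (fun z : ℂ => roleF c T
          (hpt c Finset.univ L w z P.1, hpt c Finset.univ L w z P.2) (some (a, some i)) f) =
          fun z => eval (fun j => hpt c Finset.univ L w z (ptc c T a P) j) (pderiv i f) := by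
        funext z
        show fnl (ptc c T a _) (some i) f = _
        rw [fnl_some, DFC_ptc]
      rw [e]
      exact (hPLY (ι := ι) (κ := κ)).1 (fun j t => hpt c Finset.univ L w t (ptc c T a P) j)
        (fun j => DFM_hpt c Finset.univ L w (ptc c T a P) j) _

/-- the functionals are polynomial when the polynomial moves -/
theorem DF5_poly2 (c : ι → κ) (T : Finset κ) (L w : ι → ℂ)
    (P : (ι → ℂ) × (ι → ℂ)) (f : MvPolynomial ι ℂ) (o : Option (Fin 3 × Option ι)) :
    PolyFun (fun z : ℂ => roleF c T P o (bind₁ (hsub c Finset.univ L w z) f)) := by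
  rcases o with _ | ⟨a, o⟩
  · have e : (fun z : ℂ => roleF c T P none (bind₁ (hsub c Finset.univ L w z) f)) =
        fun z => ∑ i ∈ Finset.univ.filter (fun i => c i ∈ T), P.2 i *
          eval P.1 (pderiv i (bind₁ (hsub c Finset.univ L w z) f)) := by
      funext z
      exact tgtL_apply c T P _
    rw [e]
    refine PolyFun.sum _ fun i _ => ?_
    exact (PolyFun.const _).mul ((DFM_bind c Finset.univ L w P.1 f).2 i)
  · rcases o with _ | i
    · have e : (fun z : ℂ => roleF c T P (some (a, none)) (bind₁ (hsub c Finset.univ L w z) f)) =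
          fun z => eval (ptc c T a P) (bind₁ (hsub c Finset.univ L w z) f) := by
        funext z
        show fnl (ptc c T a _) none _ = _
        rw [fnl_none]
      rw [e]
      exact (DFM_bind c Finset.univ L w (ptc c T a P) f).1
    · have e : (fun z : ℂ => roleF c T P (some (a, some i)) (bind₁ (hsub c Finset.univ L w z) f)) =
          fun z => eval (ptc c T a P) (pderiv i (bind₁ (hsub c Finset.univ L w z) f)) := by
        funext z
        show fnl (ptc c T a _) (some i) _ = _
        rw [fnl_some]
      rw [e]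
      exact (DFM_bind c Finset.univ L w (ptc c T a P) f).2 i

/-- preservation of the conditions -/
theorem DF5_pres (hEQV : EQV_stmt) (c : ι → κ) (T : Finset κ) (d : κ → ℕ) (L w : ι → ℂ) (z : ℂ)
    (t : Option (Fin 4)) (P : (ι → ℂ) × (ι → ℂ)) (f : MvPolynomial ι ℂ)
    (hf : f ∈ Sec c Finset.univ d)
    (h : ∀ o, used5 t o = true → roleF c T P o f = 0) :
    ∀ o, used5 t o = true →
      roleF c T (hpt c Finset.univ L w z P.1, hpt c Finset.univ L w z P.2) o
        (bind₁ (hsub c Finset.univ L w z) f) = 0 := by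
  obtain ⟨S, hS⟩ := hEQV c d L w z
  obtain ⟨hV, hG, hT⟩ := hS f hf
  intro o ho
  rcases o with _ | ⟨a, o⟩
  · have h0 : tgtL c T P f = 0 := h none ho
    rw [tgtL_apply] at h0
    show tgtL c T _ _ = 0
    rw [tgtL_apply]
    show ∑ i ∈ Finset.univ.filter (fun i => c i ∈ T), hpt c Finset.univ L w z P.2 i *
        eval (hpt c Finset.univ L w z P.1) (pderiv i (bind₁ (hsub c Finset.univ L w z) f)) = 0
    rw [hT T P.1 P.2, h0, mul_zero]
  · rcases o with _ | i
    · have h0 : fnl (ptc c T a P) none f = 0 := h (some (a, none)) ho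
      rw [fnl_none] at h0
      show fnl (ptc c T a _) none _ = 0
      rw [fnl_none, DFC_ptc, hV, h0, mul_zero]
    · have h0 : ∀ i', eval (ptc c T a P) (pderiv i' f) = 0 := by
        intro i'
        have h1 : fnl (ptc c T a P) (some i') f = 0 :=
          h (some (a, some i')) (DF5_used t a i i' ho)
        rwa [fnl_some] at h1
      show fnl (ptc c T a _) (some i) _ = 0
      rw [fnl_some, DFC_ptc]
      exact hG _ h0 i

end

/-- **DF5** -/
theorem DF5 (hHM2 : HM2_stmt) (hEQV : EQV_stmt) (hPLY : PLY_stmt) (hHSB : HSB_stmt)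
    (hHPT : HPT_stmt) (hSPN : SPN_stmt) : DF5_stmt := by
  intro ι κ _ _ _ _ c T d o₁ f hf P₀ l hg
  obtain ⟨g, hg⟩ := hg
  obtain ⟨w, hw⟩ : ∃ w : ι → ℂ, eval w (f : MvPolynomial ι ℂ) ≠ 0 := by
    by_contra hcon
    push Not at hcon
    apply hf
    apply Subtype.ext
    apply MvPolynomial.funext
    intro x
    rw [hcon x]
    simp
  set G : MvPolynomial ι ℂ →ₗ[ℂ] (Option (Fin 3 × Option ι) → ℂ) :=
    LinearMap.pi fun o => if used5 o₁ o then roleF c T P₀ o else 0 with hG
  have hGP : ∀ v : ↥(Sec c Finset.univ d), Phi5 c T d o₁ P₀ v = G (v : MvPolynomial ι ℂ) := by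
    intro v
    rfl
  obtain ⟨L, hL⟩ : ∃ L : ι → ℂ, l (G (Lprod c Finset.univ d L)) ≠ 0 := by
    by_contra hcon
    push Not at hcon
    have h1 := hSPN c Finset.univ d (l ∘ₗ G) hcon (g : MvPolynomial ι ℂ) g.2
    apply hg
    rw [hGP]
    exact h1
  refine ⟨fun t P => (hpt c Finset.univ L w t P.1, hpt c Finset.univ L w t P.2),
    fun t f' => ⟨bind₁ (hsub c Finset.univ L w t) (f' : MvPolynomial ι ℂ),
      hHSB c Finset.univ Finset.univ d (Finset.Subset.refl _) L w t _ f'.2⟩, ?_, ?_, ?_, ?_, ?_⟩
  · intro P
    apply Prod.ext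
    · exact (hHPT c Finset.univ Finset.univ d (Finset.Subset.refl _) L w 0 _ f.2 P.1).2.2
    · exact (hHPT c Finset.univ Finset.univ d (Finset.Subset.refl _) L w 0 _ f.2 P.2).2.2
  · intro t P v o
    simp only [Phi5_apply]
    by_cases h : used5 t o = true
    · simp only [h, if_true]
      exact DF5_poly1 hPLY c T L w P (v : MvPolynomial ι ℂ) o
    · simp only [h, if_false]
      exact PolyFun.const 0
  · intro P o
    simp only [Phi5_apply]
    by_cases h : used5 o₁ o = true
    · simp only [h, if_true]
      exact DF5_poly2 c T L w P (f : MvPolynomial ι ℂ) o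
    · simp only [h, if_false]
      exact PolyFun.const 0
  · intro t P z h
    have h1 : ∀ o, used5 t o = true → roleF c T P o (f : MvPolynomial ι ℂ) = 0 := by
      intro o ho
      have := congrFun h o
      rw [Phi5_apply, if_pos ho] at this
      simpa using this
    have h2 := DF5_pres hEQV c T d L w z t P (f : MvPolynomial ι ℂ) f.2 h1
    funext o
    rw [Phi5_apply]
    by_cases ho : used5 t o = true
    · rw [if_pos ho]
      exact h2 o ho
    · rw [if_neg ho]
      rfl
  · have h5 : Phi5 c T d o₁ P₀ (⟨bind₁ (hsub c Finset.univ L w 1) (f : MvPolynomial ι ℂ),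
        hHSB c Finset.univ Finset.univ d (Finset.Subset.refl _) L w 1 _ f.2⟩ :
          ↥(Sec c Finset.univ d)) = eval w (f : MvPolynomial ι ℂ) •
          G (Lprod c Finset.univ d L) := by
      rw [hGP]
      show G (bind₁ (hsub c Finset.univ L w 1) (f : MvPolynomial ι ℂ)) = _
      rw [(hHM2 c d f f.2).2 L w, ← MvPolynomial.smul_eq_C_mul, map_smul]
    show l (Phi5 c T d o₁ P₀ _) ≠ 0
    rw [h5, map_smul]
    exact smul_ne_zero hw hL

end Pool.Agent.SG
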